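import Pool.Agent.Helper74.HypStructDefs
import Pool.Agent.Helper74.HypStructChain

set_option autoImplicit false

namespace Pool.Agent.Results.MP_6b630c_al.UncountableChain

open Pool.Agent.Helper74.HypStruct

/-- The poset of quasi-parabolic hyperbolic structures on `ℤ wr ℤ` contains an uncountable
chain. -/
theorem result : ∃ C : Set (QuasiParabolicStructures ZwrZ),
    IsChain (· ≤ ·) C ∧ ¬ C.Countable :=
  exists_chain

end Pool.Agent.Results.MP_6b630c_al.UncountableChain
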